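import Pool.Agent.Helper28_ACX.Elim
import Pool.Agent.AND2B.DoneT
import Pool.Agent.Helper16_AHH.All4

/-!
# ACX (MP_1906c1_mp): the nine fields hold for `AHH.Z` (helper28)
-/

set_option autoImplicit false

open scoped BigOperators NNReal ENNReal Matrix

noncomputable section

namespace Pool.Agent.ACX.H28

open Pool.Agent.AND2B
open Pool.Agent.ANP

/-- THE NINE FIELDS -/
theorem nineT (d : ℕ) (a c C : ℝ) (hd : 3 ≤ d) (ha : 0 < a) (hc : 0 < c) (hc' : c ≤ 1 / 2)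
    (hC : 1 ≤ C) : Ev d a AHH.es c C fun V => Nine (AHH.Z d a AHH.es c C) V := by
  have h := ((((((((AHH.H54.ini d a c C hd ha hc hc' hC).and
    (AHH.H16.begT d a c C hd ha hc hc' hC)).and
    (AHH.H16.mmonT d a c C hd ha hc hc' hC)).and (AHH.H58.floFin d a c C hd ha hc hc' hC)).and
    (AHH.H96.finT d a c C hd ha hc hc' hC)).and (AHH.H16.rbegT d a c C hd ha hc hc' hC)).and
    (AHH.H16.rmonT d a c C hd ha hc hc' hC)).and (H28.kilT d a c C hd ha hc hc' hC)).and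
    (AHH.H54.rfinT d a c C hd ha hc hc' hC)
  refine h.imp fun V hV => ?_
  obtain ⟨⟨⟨⟨⟨⟨⟨⟨h1, h2⟩, h3⟩, h4⟩, h5⟩, h6⟩, h7⟩, h8⟩, h9⟩ := hV
  exact ⟨h1, h2, h3, h4, h5, h6, h7, h8, h9⟩

end Pool.Agent.ACX.H28
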