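import Pool.Agent.AND2B.Env

/-!
# ACX (MP_1906c1_mp): nine fields give `Ana` with the empty set; elimination of `Ev` (helper28)
-/

set_option autoImplicit false

open MeasureTheory ProbabilityTheory

open scoped BigOperators NNReal ENNReal Matrix

noncomputable section

namespace Pool.Agent.ACX.H28

open Pool.Agent.AND2B
open Pool.Agent.ANP
open Pool.Agent.ANP.H16 (Ana0 ana_of_ana0 ViOk)

variable {d : ℕ}

/-- all the fields except `Out` -/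
structure Nine (Z : Prd d) (V : Env d) : Prop where
  ini : Z.Ini V
  beg : Z.Beg V
  mmon : Z.Mmon V
  flo : Z.Flo V
  fin : Z.Fin V
  rbeg : Z.Rbeg V
  rmon : Z.Rmon V
  kil : Z.Kil V
  rfin : Z.Rfin V

/-- there is nothing to prove at the end for the empty set -/
theorem win_empty {X : Type} [Fintype X] (a : X → ℝ) (r : X → ℝ≥0) (e : ℝ) (he : 0 ≤ e) :
    Win (∅ : Set (X → ℝ)) a r e := by
  unfold Win
  simpa using he

/-- the analysis off `Vi` -/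
def ana0 {Z : Prd d} {V : Env d} (h : Nine Z V) :
    Ana0 V.G d 0 (∅ : Set (V.X → ℝ)) V.th V.kk V.cl V.Kn V.Dn V.p V.Vi where
  HS := Z.HS V
  HM := Z.HM V
  HR := Z.HR V
  m0 := fun _ => V.m
  ini := h.ini
  beg := h.beg
  mmon := h.mmon
  flo := h.flo
  fin := h.fin
  rbeg := h.rbeg
  rmon := h.rmon
  kil := h.kil
  rfin := h.rfin
  out := fun _ _ a r _ _ _ _ _ _ => win_empty a r _ (by norm_num)

theorem viok (V : Env d) : ViOk (∅ : Set (V.X → ℝ)) V.Vi :=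
  ⟨(AND2B.H16.viok V.E V.A V.ε V.R V.L).mono, fun _ a r _ _ => win_empty a r _ (by norm_num)⟩

/-- THE ANALYSIS -/
def ana {Z : Prd d} {V : Env d} (hcl : ∀ k, 0 < V.cl k) (h : Nine Z V) :
    Ana V.G d 0 (∅ : Set (V.X → ℝ)) V.th V.kk V.cl V.Kn V.Dn V.p :=
  ana_of_ana0 (viok V) hcl (ana0 h)

theorem ana_HS {Z : Prd d} {V : Env d} (hcl : ∀ k, 0 < V.cl k) (h : Nine Z V) (n k : ℕ)
    (T : Cfg V.X) (run : Finset V.X) :
    (ana hcl h).HS n k T run ↔ V.Vi T ∨ Z.HS V n k T run := Iff.rfl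

theorem cl_pos' {V : Env d} {a : ℝ} (h : V.Pre a) (k : ℕ) : 0 < V.cl k :=
  AND2B.H16.cl_pos h.w (lt_of_lt_of_le (by norm_num) h.th.1) k

/-! ### Elimination of `Ev` -/

/-- the torus is large enough for the start -/
theorem torus_large {C : ℝ} {th : ℝ≥0} {c₁ C₁ : ℝ} {α J : ℕ} {β : ℝ} {w : ℝ≥0} {t : ℝ} {N μ : ℕ}
    {kk l r Kn Dn : ℕ → ℕ} (hth : 0 < th) (hth1 : th < 1) (hw : 0 < w) (hw1 : (w : ℝ) ≤ 1)
    (hC : 0 < C) (hwC : (w : ℝ) ≤ 1 / C) (hS : Scal d th c₁ C₁ α J β w t N μ kk l r Kn Dn) :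
    C / (w : ℝ) ^ 2 ≤ ((2 ^ μ : ℕ) : ℝ) := by
  have hw0 : (0 : ℝ) < w := by exact_mod_cast hw
  have hthp : (0 : ℝ) < th := by exact_mod_cast hth
  have hs1 : sg w th kk (N + 1) ≤ w := by
    unfold sg cl
    push_cast
    have : (th : ℝ) ^ kk (N + 1) ≤ 1 := pow_le_one₀ (NNReal.coe_nonneg _) (by exact_mod_cast hth1.le)
    have := mul_le_mul_of_nonneg_left this hw0.le
    linarith
  have hs0 : 0 < sg w th kk (N + 1) := by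
    unfold sg cl
    push_cast
    positivity
  have h5 : (w : ℝ) ^ (-(5 : ℝ)) ≤ sg w th kk (N + 1) ^ (-(5 : ℝ)) :=
    Real.rpow_le_rpow_of_nonpos hs0 hs1 (by norm_num)
  have h6 := hS.mN
  have h7 : C / (w : ℝ) ^ 2 ≤ (w : ℝ) ^ (-(5 : ℝ)) := by
    rw [Real.rpow_neg hw0.le]
    have e5 : (w : ℝ) ^ (5 : ℝ) = (w : ℝ) ^ 5 := by
      rw [← Real.rpow_natCast]
      norm_num
    rw [e5, div_le_iff₀ (by positivity), inv_mul_eq_div, le_div_iff₀ (by positivity)]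
    have h8 : C * w ≤ 1 := by
      rw [le_div_iff₀ hC] at hwC
      linarith
    calc C * (w : ℝ) ^ 5 = (C * w) * ((w : ℝ) ^ 2 * w ^ 2) := by ring
      _ ≤ 1 * ((w : ℝ) ^ 2 * 1) := by
          have : (w : ℝ) ^ 2 ≤ 1 := pow_le_one₀ hw0.le hw1
          gcongr
      _ = (w : ℝ) ^ 2 := by ring
  have h9 : ((2 ^ μ : ℕ) : ℝ) = (2 : ℝ) ^ μ := by push_cast; rfl
  rw [h9]
  exact h7.trans (h5.trans h6)

/-- ELIMINATION OF `Ev`. `e₀` may be taken smaller than any given number `e'`. -/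
theorem ev_elim {a es c C : ℝ} (hc : 0 < c) (hc' : c ≤ 1 / 2) (hC : 1 ≤ C)
    (hst : ∀ (M : ℕ) [NeZero M] (E η T : ℝ), |E| ≤ 2 * d - a → 0 < η → η ≤ T → T ≤ c →
      C / T ^ 2 ≤ M → ∃ m ζ : ℂ, ANI.Start2 d M E η T es m ζ c C)
    {P : Env d → Prop} (hall : Ev d a es c C P) :
    ∃ (th : ℝ≥0) (c₁ : ℝ), 1 / 2 ≤ th ∧ th < 1 ∧ 0 < c₁ ∧ ∀ (C₁ : ℝ) (α J : ℕ), 2 ≤ α →
      ∃ β w₀ : ℝ, 0 < β ∧ 0 < w₀ ∧ ∀ (w : ℝ≥0) (E : ℝ), 0 < w → (w : ℝ) ≤ w₀ →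
      |E| < 2 * d - a → ∃ ε : ℝ, 0 < ε ∧ ∀ (A : ℝ) (R : ℕ), ∃ t₀ : ℝ, 0 < t₀ ∧
      ∀ t : ℝ, 0 < t → t ≤ t₀ → ∀ (N μ : ℕ) (kk l r Kn Dn : ℕ → ℕ),
        Scal d th c₁ C₁ α J β w t N μ kk l r Kn Dn → ∀ L : ℝ, 1 ≤ L → ∀ e' : ℝ, 0 < e' →
        ∃ (e₀ : ℝ) (m ζ : ℂ), e₀ ≤ e' ∧
          (⟨th, c₁, C₁, α, J, β, w, E, ε, A, R, t, N, μ, kk, l, r, Kn, Dn, L, e₀, m, ζ⟩ :
            Env d).Good a es c C ∧
          P ⟨th, c₁, C₁, α, J, β, w, E, ε, A, R, t, N, μ, kk, l, r, Kn, Dn, L, e₀, m, ζ⟩ := by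
  obtain ⟨τ₀, k₁, hτ, hk, hall⟩ := hall
  have hth1 : max (1 / 2 : ℝ) (1 - τ₀) < 1 := max_lt (by norm_num) (by linarith)
  have hth0 : (0 : ℝ) ≤ max (1 / 2 : ℝ) (1 - τ₀) := le_max_of_le_left (by norm_num)
  set th : ℝ≥0 := ⟨max (1 / 2 : ℝ) (1 - τ₀), hth0⟩ with hth
  have hthc : (th : ℝ) = max (1 / 2 : ℝ) (1 - τ₀) := rfl
  have h1 : (1 / 2 : ℝ≥0) ≤ th := by
    rw [← NNReal.coe_le_coe, hthc]
    push_cast
    exact le_max_left _ _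
  have h2 : 1 - τ₀ ≤ (th : ℝ) := by
    rw [hthc]
    exact le_max_right _ _
  have h3 : th < 1 := by
    rw [← NNReal.coe_lt_coe, hthc]
    push_cast
    exact hth1
  refine ⟨th, k₁, h1, h3, hk, fun C₁ α J hα => ?_⟩
  obtain ⟨β₀, w₀, hβ₀, hw₀, hall⟩ := hall th k₁ h1 h2 h3 hk le_rfl C₁ α J hα
  have hC0 : 0 < C := by linarith
  refine ⟨β₀, min w₀ (min c (1 / C)), hβ₀, lt_min hw₀ (lt_min hc (by positivity)), ?_⟩
  intro w E hw hw' hE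
  have hwc : (w : ℝ) ≤ c := hw'.trans ((min_le_right _ _).trans (min_le_left _ _))
  have hwC : (w : ℝ) ≤ 1 / C := hw'.trans ((min_le_right _ _).trans (min_le_right _ _))
  have hw0 : (0 : ℝ) < w := by exact_mod_cast hw
  obtain ⟨ε₀, hε₀, hall⟩ := hall β₀ w E hβ₀ le_rfl hw (hw'.trans (min_le_left _ _)) hE
  refine ⟨ε₀, hε₀, fun A R => ?_⟩
  obtain ⟨t₀, ht₀, hall⟩ := hall ε₀ hε₀ le_rfl A R
  refine ⟨t₀, ht₀, fun t ht htt N μ kk l r Kn Dn hS L hL e' he' => ?_⟩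
  obtain ⟨e₁, he₁, hall⟩ := hall t ht htt N μ kk l r Kn Dn hS L hL
  have he : 0 < min (min e₁ w) e' := lt_min (lt_min he₁ hw0) he'
  have hM := torus_large (C := C) (lt_of_lt_of_le (by norm_num) h1) h3 hw (by linarith) hC0 hwC hS
  obtain ⟨m, ζ, hm⟩ := hst (2 ^ μ) E (min (min e₁ w) e') w hE.le he
    ((min_le_left _ _).trans (min_le_right _ _)) hwc hM
  refine ⟨min (min e₁ w) e', m, ζ, min_le_right _ _, ?_,
    hall (min (min e₁ w) e') he ((min_le_left _ _).trans (min_le_left _ _)) m ζ hm⟩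
  exact ⟨⟨⟨h1, h3⟩, hk, hα, hβ₀, hw, hE, hε₀, ht, hS, hL⟩, he, hm⟩

end Pool.Agent.ACX.H28
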